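import Pool.Agent.MWK.StmtsN

/-!
# Block MWK, row NTB: two pairs preserve `PB`
-/

namespace Pool.Agent.MWK.H19

open Pool.Agent.Helper14_MV Pool.Agent.Helper2_MV Pool.Agent.MWK
open Pool.Agent.MWF (Ap gaml RR_gaml)

theorem filter_rep2 {Z : List ℕ} (h : ∀ c ∈ Z, c = 0 ∨ c = 2) :
    Z.filter (fun c => decide (c ≠ 2)) = List.replicate (Z.count 0) 0 := by
  induction Z with
  | nil => rfl
  | cons a Z ih =>
    have ih' := ih (fun c hc => h c (List.mem_cons_of_mem _ hc))
    rcases h a List.mem_cons_self with rfl | rfl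
    · rw [List.filter_cons_of_pos (by decide), ih', List.count_cons_self]
      rfl
    · rw [List.filter_cons_of_neg (by decide), ih', List.count_cons_of_ne (by decide)]

theorem filter_rep0 {Z : List ℕ} (h : ∀ c ∈ Z, c = 0 ∨ c = 2) :
    Z.filter (fun c => decide (c ≠ 0)) = List.replicate (Z.count 2) 2 := by
  induction Z with
  | nil => rfl
  | cons a Z ih =>
    have ih' := ih (fun c hc => h c (List.mem_cons_of_mem _ hc))
    rcases h a List.mem_cons_self with rfl | rfl
    · rw [List.filter_cons_of_neg (by decide), ih', List.count_cons_of_ne (by decide)]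
    · rw [List.filter_cons_of_pos (by decide), ih', List.count_cons_self]
      rfl

theorem pb_swap {p A B q : List ℕ} (hA : ∀ c ∈ A, c = 0 ∨ c = 2) (hAB : A.Perm B)
    (h : PB (p ++ A ++ q)) : PB (p ++ B ++ q) := by
  have hB : ∀ c ∈ B, c = 0 ∨ c = 2 := fun c hc => hA c (hAB.mem_iff.2 hc)
  obtain ⟨h1, h2, h3⟩ := h
  have e2 : (p ++ B ++ q).filter (fun c => decide (c ≠ 2)) =
      (p ++ A ++ q).filter (fun c => decide (c ≠ 2)) := by
    rw [List.filter_append, List.filter_append, List.filter_append, List.filter_append,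
      filter_rep2 hA, filter_rep2 hB, hAB.count_eq]
  have e0 : (p ++ B ++ q).filter (fun c => decide (c ≠ 0)) =
      (p ++ A ++ q).filter (fun c => decide (c ≠ 0)) := by
    rw [List.filter_append, List.filter_append, List.filter_append, List.filter_append,
      filter_rep0 hA, filter_rep0 hB, hAB.count_eq]
  refine ⟨?_, ?_, ?_⟩
  · intro c hc
    apply h1
    simp only [List.mem_append] at hc ⊢
    rcases hc with (hc | hc) | hc
    · exact Or.inl (Or.inl hc)
    · exact Or.inl (Or.inr (hAB.mem_iff.2 hc))
    · exact Or.inr hc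
  · rw [e2]
    exact h2
  · rw [e0]
    exact h3

theorem pb_count {w : List ℕ} (h : PB w) : w.count 1 = 1 := by
  obtain ⟨k, _, hk⟩ := h.2.1
  have e : (w.filter (fun c => decide (c ≠ 2))).count 1 = w.count 1 :=
    List.count_filter (by decide)
  rw [← e, hk]
  have : (List.replicate k 0).count 1 = 0 := List.count_eq_zero.2 (by
    intro hm
    have := List.eq_of_mem_replicate hm
    omega)
  rw [List.count_cons_of_ne (by decide), List.count_cons_self, this]

theorem pb_core {p M q : List ℕ} (h : PB (p ++ M ++ q)) (h1 : 1 ∉ M) (h2 : M.count 0 ≠ 1) :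
    (∀ c ∈ M, c = 0) ∨ (∀ c ∈ M, c = 2) := by
  have hM : ∀ c ∈ M, c = 0 ∨ c = 2 := by
    intro c hc
    rcases h.1 c (by simp [hc]) with h | h | h
    · exact Or.inl h
    · subst h
      exact absurd hc h1
    · exact Or.inr h
  by_cases hp : 1 ∈ p
  · left
    obtain ⟨p1, p2, rfl⟩ := List.append_of_mem hp
    obtain ⟨j, _, hj⟩ := h.2.2
    have hcnt := pb_count h
    have e : (p1 ++ 1 :: p2 ++ M ++ q).filter (fun c => decide (c ≠ 0)) =
        p1.filter (fun c => decide (c ≠ 0)) ++ 1 :: (p2 ++ M ++ q).filter
          (fun c => decide (c ≠ 0)) := by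
      simp
    rw [e] at hj
    have hn1 : 1 ∉ p1.filter (fun c => decide (c ≠ 0)) := by
      intro hm
      have hm' := (List.mem_filter.1 hm).1
      have h3 := List.count_pos_iff.2 hm'
      simp only [List.count_append, List.count_cons_self] at hcnt
      omega
    have hn2 : 1 ∉ (p2 ++ M ++ q).filter (fun c => decide (c ≠ 0)) := by
      intro hm
      have hm' := (List.mem_filter.1 hm).1
      have h3 := List.count_pos_iff.2 hm'
      simp only [List.count_append, List.count_cons_self] at hcnt h3
      omega
    have h4 := (List.append_cons_inj_of_notMem hn1 hn2).1 hj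
    intro c hc
    rcases hM c hc with h5 | h5
    · exact h5
    · exfalso
      subst h5
      have h6 : (2 : ℕ) ∈ (p2 ++ M ++ q).filter (fun c => decide (c ≠ 0)) :=
        List.mem_filter.2 ⟨by simp [hc], by decide⟩
      rw [h4.2.2] at h6
      exact List.not_mem_nil h6
  · right
    by_contra hcon
    push Not at hcon
    obtain ⟨c, hc, hc2⟩ := hcon
    have hc0 : c = 0 := by
      rcases hM c hc with h5 | h5
      · exact h5
      · exact absurd h5 hc2
    subst hc0
    have h3 : 2 ≤ M.count 0 := by
      have := List.count_pos_iff.2 hc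
      omega
    obtain ⟨k, _, hk⟩ := h.2.1
    rw [List.filter_append] at hk
    have h4 : 2 ≤ ((p ++ M).filter (fun c => decide (c ≠ 2))).count 0 := by
      rw [List.count_filter (by decide), List.count_append]
      omega
    have h5 : 1 ∉ (p ++ M).filter (fun c => decide (c ≠ 2)) := by
      intro hm
      have hm' := (List.mem_filter.1 hm).1
      rw [List.mem_append] at hm'
      rcases hm' with h6 | h6
      · exact hp h6
      · exact h1 h6
    revert hk h4 h5
    generalize (p ++ M).filter (fun c => decide (c ≠ 2)) = F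
    intro hk h4 h5
    cases F with
    | nil => simp at h4
    | cons a F =>
      cases F with
      | nil =>
        have := List.count_le_length (a := 0) (l := [a])
        simp only [List.length_singleton] at this
        omega
      | cons b F =>
        simp only [List.cons_append, List.cons.injEq] at hk
        apply h5
        rw [hk.2.1]
        simp

theorem eq_of_core {M M' : List ℕ} (h : (∀ c ∈ M, c = 0) ∨ (∀ c ∈ M, c = 2)) (hp : M.Perm M') :
    M = M' := by
  rcases h with h | h
  · have e1 := List.eq_replicate_iff.2 ⟨rfl, h⟩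
    have e2 := List.eq_replicate_iff.2 ⟨rfl, fun c hc => h c (hp.mem_iff.2 hc)⟩
    rw [e1, e2, hp.length_eq]
  · have e1 := List.eq_replicate_iff.2 ⟨rfl, h⟩
    have e2 := List.eq_replicate_iff.2 ⟨rfl, fun c hc => h c (hp.mem_iff.2 hc)⟩
    rw [e1, e2, hp.length_eq]

theorem ntb : NtbStmt := by
  constructor
  · apply RR_gaml
    intro f p q
    have e1 : p ++ [0, 2, 2, 1, 0].flatMap f ++ q =
        p ++ (f 0 ++ (f 2 ++ f 2)) ++ (f 1 ++ f 0 ++ q) := by simp
    have e2 : p ++ [2, 2, 0, 1, 0].flatMap f ++ q =
        p ++ ((f 2 ++ f 2) ++ f 0) ++ (f 1 ++ f 0 ++ q) := by simp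
    have hl : ∀ M, M.Perm (f 0 ++ (f 2 ++ f 2)) → PB (p ++ M ++ (f 1 ++ f 0 ++ q)) →
        ∀ c ∈ M, c = 0 ∨ c = 2 := by
      intro M hM h c hc
      have hcnt := pb_count h
      rcases h.1 c (by simp [hc]) with h | h | h
      · exact Or.inl h
      · exfalso
        subst h
        have h3 := List.count_pos_iff.2 hc
        simp only [List.count_append, hM.count_eq] at hcnt h3
        omega
      · exact Or.inr h
    rw [e1, e2]
    constructor
    · intro h
      exact pb_swap (hl _ (List.Perm.refl _) h) List.perm_append_comm h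
    · intro h
      exact pb_swap (hl _ List.perm_append_comm h) List.perm_append_comm h
  · intro f p q h
    have e1 : p ++ [0, 0, 2, 2, 1, 0].flatMap f ++ q =
        p ++ ((f 0 ++ f 0) ++ (f 2 ++ f 2)) ++ (f 1 ++ f 0 ++ q) := by simp
    have e2 : p ++ [2, 2, 0, 0, 1, 0].flatMap f ++ q =
        p ++ ((f 2 ++ f 2) ++ (f 0 ++ f 0)) ++ (f 1 ++ f 0 ++ q) := by simp
    have hl : ∀ M, M.Perm ((f 0 ++ f 0) ++ (f 2 ++ f 2)) → PB (p ++ M ++ (f 1 ++ f 0 ++ q)) →
        (∀ c ∈ M, c = 0) ∨ (∀ c ∈ M, c = 2) := by
      intro M hM h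
      have hcnt := pb_count h
      apply pb_core h
      · intro hc
        have h3 := List.count_pos_iff.2 hc
        simp only [List.count_append, hM.count_eq] at hcnt h3
        omega
      · rw [hM.count_eq]
        simp only [List.count_append]
        omega
    rw [e1, e2] at h ⊢
    have key : (f 0 ++ f 0) ++ (f 2 ++ f 2) = (f 2 ++ f 2) ++ (f 0 ++ f 0) := by
      rcases h with h | h
      · exact eq_of_core (hl _ (List.Perm.refl _) h) List.perm_append_comm
      · exact (eq_of_core (hl _ List.perm_append_comm h) List.perm_append_comm).symm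
    rw [key]

end Pool.Agent.MWK.H19
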