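import Pool.Agent.MWK.Stmts

/-!
# Block MWK, row SAB: the word bit of type A
-/

namespace Pool.Agent.MWK.H19

open Pool.Agent.Helper14_MV Pool.Agent.Helper2_MV Pool.Agent.MWK

theorem flatMap_nil' {g : ℕ → List ℕ} {U : List ℕ} (h : ∀ z ∈ U, g z = []) :
    U.flatMap g = [] := List.flatMap_eq_nil_iff.2 h

theorem sab (h1 : FreStmt) (h2 : CvtStmt) (h3 : CrdStmt) (h4 : AsgStmt) (h5 : OkmStmt) :
    SabStmt := by
  intro θ hK m u v x y cs huv hlen hux hvx hyu hyv hcu hcv hcx hvx2
  intro P X C qs R hqs hok
  -- the letters are different
  have hxA : x ∈ pre u y := List.count_pos_iff.1 (by omega)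
  have hxy : x ≠ y := by
    rintro rfl
    exact not_mem_pre u x hxA
  have hxcs : x ∉ cs := by
    intro hx
    have := hcx x hx
    have h' : x ∈ pre v x := List.count_pos_iff.1 (by omega)
    exact not_mem_pre v x h'
  have hycs : y ∉ cs := hcu.not_mem (List.mem_singleton.2 rfl)
  have hnd : (x :: y :: cs).Nodup := by
    rw [List.nodup_cons, List.nodup_cons]
    refine ⟨?_, hycs, hcu.nodup⟩
    rw [List.mem_cons]
    rintro (h | h)
    · exact hxy h
    · exact hxcs h
  obtain ⟨g, hg, hg0⟩ := h4 (x :: y :: cs) (X :: C :: qs) hnd (by simp [hlen, hqs])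
  simp only [List.map_cons, List.cons.injEq] at hg
  obtain ⟨hgx, hgy, hgc⟩ := hg
  have hg0' : ∀ z, z ≠ x → z ≠ y → z ∉ cs → g z = [] := by
    intro z hz1 hz2 hz3
    apply hg0
    rw [List.mem_cons, List.mem_cons]
    rintro (h | h | h)
    · exact hz1 h
    · exact hz2 h
    · exact hz3 h
  -- reading `u`
  have hu : RR θ (P ++ u.flatMap g ++ R) (P ++ X ++ X ++ C ++ qs.flatten ++ R) := by
    obtain ⟨B, hB⟩ := mem_split hyu
    have hcsA : ∀ c ∈ cs, c ∉ pre u y := fun c hc =>
      pre_asymm (hcu.mem_pre y (List.mem_singleton.2 rfl) c hc)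
    obtain ⟨U1, U2', hU, hxU1⟩ := List.eq_append_cons_of_mem hxA
    have hxU2 : x ∈ U2' := by
      rw [← List.count_pos_iff]
      rw [hU, List.count_append, List.count_eq_zero.2 hxU1, List.count_cons_self] at hux
      omega
    obtain ⟨U2, U3, hU2, hxU2'⟩ := List.eq_append_cons_of_mem hxU2
    have hAz : ∀ z ∈ pre u y, z ≠ x → g z = [] := by
      intro z hz hzx
      refine hg0' z hzx ?_ (fun h => hcsA z h hz)
      rintro rfl
      exact not_mem_pre u z hz
    have e1 : U1.flatMap g = [] := by
      apply flatMap_nil'
      intro z hz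
      refine hAz z ?_ ?_
      · rw [hU]
        exact List.mem_append_left _ hz
      · rintro rfl
        exact hxU1 hz
    have e2 : U2.flatMap g = [] := by
      apply flatMap_nil'
      intro z hz
      refine hAz z ?_ ?_
      · rw [hU, hU2]
        simp [hz]
      · rintro rfl
        exact hxU2' hz
    have e3 : ∀ l ∈ U3.flatMap g, 2 ≤ (P ++ X ++ X).count l := by
      intro l hl
      obtain ⟨z, hz, hlz⟩ := List.mem_flatMap.1 hl
      by_cases hzx : z = x
      · subst hzx
        rw [hgx] at hlz
        have := List.count_pos_iff.2 hlz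
        rw [List.count_append, List.count_append]
        omega
      · have := hAz z (by rw [hU, hU2]; simp [hz]) hzx
        rw [this] at hlz
        exact absurd hlz List.not_mem_nil
    have hfl : P ++ u.flatMap g ++ R =
        P ++ X ++ X ++ U3.flatMap g ++ (C ++ B.flatMap g ++ R) := by
      conv_lhs => rw [hB, hU, hU2]
      simp [List.flatMap_append, List.flatMap_cons, e1, e2, hgx, hgy]
    rw [hfl]
    have s1 := h1 θ hK (P ++ X ++ X) (U3.flatMap g) (C ++ B.flatMap g ++ R) e3
    have hchb : Chb [y] cs B := by
      refine h2 cs [y] u (pre u y ++ [y]) B (by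
        conv_lhs => rw [hB]
        simp) ?_ ?_ hcu
      · intro z hz
        rw [List.mem_singleton] at hz
        subst hz
        rw [List.count_append, List.count_eq_zero.2 (not_mem_pre u z), List.count_singleton_self]
      · intro c hc hc'
        rw [List.mem_append, List.mem_singleton] at hc'
        rcases hc' with h | h
        · exact hcsA c hc h
        · subst h
          exact hycs hc
    have s2 := h3 θ hK g cs [y] B (P ++ X ++ X ++ C) hchb (by
      intro z _
      by_cases hzy : z = y
      · exact Or.inr (Or.inl (List.mem_singleton.2 hzy))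
      by_cases hzc : z ∈ cs
      · exact Or.inr (Or.inr (Or.inl hzc))
      by_cases hzx : z = x
      · refine Or.inr (Or.inr (Or.inr ?_))
        intro l hl
        rw [hzx, hgx] at hl
        have := List.count_pos_iff.2 hl
        rw [List.count_append, List.count_append, List.count_append]
        omega
      · exact Or.inl (hg0' z hzx hzy hzc)) (by
      rw [hgc, List.flatMap_singleton, hgy]
      exact hok)
    have s3 := s2.append (RR.refl R)
    rw [hgc] at s3
    refine θ.trans s1 ?_
    have e4 : P ++ X ++ X ++ (C ++ B.flatMap g ++ R) = P ++ X ++ X ++ C ++ B.flatMap g ++ R := by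
      simp
    rw [e4]
    exact s3
  -- reading `v`
  have hv : RR θ (P ++ v.flatMap g ++ R) (P ++ X ++ C ++ X ++ qs.flatten ++ R) := by
    obtain ⟨B0, hB0⟩ := mem_split hyv
    have hxA' : x ∈ pre v y := List.count_pos_iff.1 (by omega)
    obtain ⟨V1, V2, hV, hxV1⟩ := List.eq_append_cons_of_mem hxA'
    have hxV2 : x ∉ V2 := by
      rw [← List.count_eq_zero]
      rw [hV, List.count_append, List.count_cons_self] at hvx
      omega
    have hxB0 : x ∈ B0 := by
      rw [← List.count_pos_iff]
      have h := hvx2
      rw [hB0, List.count_append, hvx, List.count_cons_of_ne (Ne.symm hxy)] at h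
      omega
    obtain ⟨V3, B', hB', hxV3⟩ := List.eq_append_cons_of_mem hxB0
    have hvs : v = (pre v y ++ y :: V3) ++ x :: B' := by
      conv_lhs => rw [hB0, hB']
      simp
    have hcount1 : (pre v y ++ y :: V3).count x = 1 := by
      rw [List.count_append, hvx, List.count_cons_of_ne (Ne.symm hxy),
        List.count_eq_zero.2 hxV3]
    have hcsA : ∀ c ∈ cs, c ∉ pre v y ++ y :: V3 := by
      intro c hc hm
      have h := hcx c hc
      have e : pre v c = pre (pre v y ++ y :: V3) c := by
        conv_lhs => rw [hvs]
        rw [pre_append_mem hm]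
      rw [e] at h
      have := count_pre_le (pre v y ++ y :: V3) x c
      omega
    have hcsA0 : ∀ c ∈ cs, c ∉ pre v y ++ y :: V3 ++ [x] := by
      intro c hc hm
      rw [List.mem_append, List.mem_singleton] at hm
      rcases hm with h | h
      · exact hcsA c hc h
      · subst h
        exact hxcs hc
    have hvs' : v = (pre v y ++ y :: V3 ++ [x]) ++ B' := by
      conv_lhs => rw [hvs]
      simp
    have hyV3 : V3.count y = 0 := by
      have hc1 : ∀ D : List ℕ, (pre v y ++ y :: V3 ++ [x] ++ D).count y = 1 → V3.count y = 0 := by
        intro D hD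
        rw [List.count_append, List.count_append, List.count_append, List.count_cons_self] at hD
        omega
      cases cs with
      | nil =>
        have h : v.count y = 1 := hcv y (List.mem_singleton.2 rfl)
        rw [hvs'] at h
        exact hc1 B' h
      | cons c cs' =>
        have h : (pre v c).count y = 1 := hcv.1 y (List.mem_singleton.2 rfl)
        have e : pre v c = (pre v y ++ y :: V3 ++ [x]) ++ pre B' c := by
          conv_lhs => rw [hvs']
          rw [pre_append (hcsA0 c List.mem_cons_self)]
        rw [e] at h
        exact hc1 _ h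
    have hchb : Chb [y] cs B' := by
      refine h2 cs [y] v (pre v y ++ y :: V3 ++ [x]) B' hvs' ?_ hcsA0 hcv
      intro z hz
      rw [List.mem_singleton] at hz
      subst hz
      rw [List.count_append, List.count_append, List.count_eq_zero.2 (not_mem_pre v z),
        List.count_cons_self, hyV3, List.count_singleton]
      simp [hxy]
    have hgA : ∀ z ∈ pre v y ++ y :: V3, z ≠ x → z ≠ y → g z = [] := by
      intro z hz hzx hzy
      exact hg0' z hzx hzy (fun h => hcsA z h hz)
    have e1 : V1.flatMap g = [] := by
      apply flatMap_nil'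
      intro z hz
      have hzA : z ∈ pre v y := by
        rw [hV]
        exact List.mem_append_left _ hz
      refine hgA z (List.mem_append_left _ hzA) ?_ ?_
      · rintro rfl
        exact hxV1 hz
      · rintro rfl
        exact not_mem_pre v z hzA
    have e2 : V2.flatMap g = [] := by
      apply flatMap_nil'
      intro z hz
      have hzA : z ∈ pre v y := by
        rw [hV]
        simp [hz]
      refine hgA z (List.mem_append_left _ hzA) ?_ ?_
      · rintro rfl
        exact hxV2 hz
      · rintro rfl
        exact not_mem_pre v z hzA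
    have e3 : V3.flatMap g = [] := by
      apply flatMap_nil'
      intro z hz
      refine hgA z (by simp [hz]) ?_ ?_
      · rintro rfl
        exact hxV3 hz
      · rintro rfl
        exact List.count_eq_zero.1 hyV3 hz
    have hfl : P ++ v.flatMap g = P ++ X ++ C ++ X ++ B'.flatMap g := by
      conv_lhs => rw [hvs', hV]
      simp [List.flatMap_append, List.flatMap_cons, e1, e2, e3, hgx, hgy]
    rw [hfl]
    have s2 := h3 θ hK g cs [y] B' (P ++ X ++ C ++ X) hchb (by
      intro z _
      by_cases hzy : z = y
      · exact Or.inr (Or.inl (List.mem_singleton.2 hzy))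
      by_cases hzc : z ∈ cs
      · exact Or.inr (Or.inr (Or.inl hzc))
      by_cases hzx : z = x
      · refine Or.inr (Or.inr (Or.inr ?_))
        intro l hl
        rw [hzx, hgx] at hl
        have := List.count_pos_iff.2 hl
        rw [List.count_append, List.count_append, List.count_append]
        omega
      · exact Or.inl (hg0' z hzx hzy hzc)) (by
      rw [hgc, List.flatMap_singleton, hgy]
      refine h5 qs _ _ _ _ hok ?_ (fun z hz => hz)
      intro l
      simp only [List.count_append]
      omega)
    have s3 := s2.append (RR.refl R)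
    rw [hgc] at s3
    exact s3
  have hs : RR θ (P ++ u.flatMap g ++ R) (P ++ v.flatMap g ++ R) := ((RR.refl P).append (huv.sub g)).append (RR.refl R)
  exact θ.trans hu.symm (θ.trans hs hv)

end Pool.Agent.MWK.H19
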