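import Pool.Agent.MWK.Stmts

/-!
# Block MWK, row TGB: from the word bit of type B to the exchanges
-/

namespace Pool.Agent.MWK.H19

open Pool.Agent.Helper14_MV Pool.Agent.Helper2_MV Pool.Agent.MWK

/-- the cut in the cases (4) and (5) -/
theorem tgb_core (h2 : SegStmt) (h4 : CutStmt) (h5 : TwcStmt) (m : ℕ) (P : List ℕ) (a b c d : ℕ)
    (Q : List ℕ) (hA1 : (P ++ [a, b]).count c = 1) (hd : d ∈ P ++ [a, b])
    (hc : ¬ Dp (m + 1) (P ++ a :: b :: Q) c) (hdm : ¬ Dp m (P ++ a :: b :: Q) d) :
    ∃ (Q1 : List ℕ) (qs : List (List ℕ)) (R : List ℕ), qs.length = m ∧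
      Q = Q1 ++ c :: (qs.flatten ++ R) ∧
      Ok (P ++ a :: b :: Q1 ++ [c]) (d :: Q1 ++ [c]) qs := by
  obtain ⟨q, R0, hQ, hq, hR⟩ := h4 (fun z => Dp m (P ++ a :: b :: Q) z) (P ++ [a, b]) Q
  have hw : P ++ a :: b :: Q = (P ++ [a, b]) ++ q ++ R0 := by
    conv_lhs => rw [hQ]
    simp
  have h2c : 2 ≤ ((P ++ [a, b]) ++ q).count c := by
    refine h5 (P ++ a :: b :: Q) (P ++ [a, b]) q R0 m hw hR c ?_ hc
    apply List.mem_append_left
    rw [← List.count_pos_iff]
    omega
  have hcq : c ∈ q := by
    rw [← List.count_pos_iff]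
    rw [List.count_append] at h2c
    omega
  obtain ⟨Q1, q', hq1⟩ := List.append_of_mem hcq
  have hcA : c ∈ P ++ [a, b] := by
    rw [← List.count_pos_iff]
    omega
  have hQ' : Q = Q1 ++ c :: (q' ++ R0) := by
    rw [hQ, hq1]
    simp
  have hw' : P ++ a :: b :: Q = (P ++ a :: b :: Q1 ++ [c]) ++ (q' ++ R0) := by
    conv_lhs => rw [hQ']
    simp
  have hcount : ∀ z, (P ++ a :: b :: Q1 ++ [c]).count z =
      (P ++ [a, b]).count z + Q1.count z + ([c] : List ℕ).count z := by
    intro z
    have : P ++ a :: b :: Q1 ++ [c] = (P ++ [a, b]) ++ Q1 ++ [c] := by simp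
    rw [this, List.count_append, List.count_append]
  obtain ⟨qs, R, hl, hfl, hok, -⟩ := h2 m (P ++ a :: b :: Q) (P ++ a :: b :: Q1 ++ [c])
    (q' ++ R0) (d :: Q1 ++ [c]) hw' (by
      intro z hz
      rw [List.cons_append, List.mem_cons, List.mem_append, List.mem_singleton] at hz
      rcases hz with rfl | hz | rfl
      · right
        refine ⟨?_, hdm⟩
        rw [← List.count_pos_iff, hcount]
        have := List.count_pos_iff.2 hd
        omega
      · have hz1 : 1 ≤ Q1.count z := List.count_pos_iff.2 hz
        by_cases hzA : z ∈ P ++ [a, b]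
        · left
          have := List.count_pos_iff.2 hzA
          rw [hcount]
          omega
        · right
          refine ⟨?_, hq z ?_ hzA⟩
          · rw [← List.count_pos_iff, hcount]
            omega
          · rw [hq1]
            exact List.mem_append_left _ hz
      · left
        rw [hcount, List.count_singleton_self]
        omega)
  exact ⟨Q1, qs, R, hl, by rw [hQ', hfl], hok⟩

theorem tgb (h1 : SwkStmt) (h2 : SegStmt) (h3 : OkmStmt) (h4 : CutStmt) (h5 : TwcStmt)
    (h6 : MvlStmt) : TgbStmt := by
  intro θ hK m hW P a b Q hab ha1 hb1 hH1 hH2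
  by_cases haP : a ∈ P
  · by_cases hbP : b ∈ P
    · exact h1 θ hK P a b Q haP hbP
    · -- `a ∈ P`, `b ∉ P`
      have hbm : ¬ Dp m (P ++ a :: b :: Q) b := fun h => hH2 ⟨hbP, Or.inl h⟩
      obtain ⟨qs, R, hl, hfl, hok, -⟩ := h2 m (P ++ a :: b :: Q) (P ++ [a, b]) Q [b] (by simp) (by
        intro z hz
        rw [List.mem_singleton] at hz
        subst hz
        exact Or.inr ⟨by simp, hbm⟩)
      have h := hW P [a] [b] qs R hl (by
        intro l hl
        rw [List.mem_singleton] at hl
        subst hl
        rw [List.count_append, List.count_singleton_self]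
        have := List.count_pos_iff.2 haP
        omega) (h3 qs (P ++ [a, b]) (P ++ [a] ++ [b]) [b] [b] hok (by
          intro l
          simp) (fun z hz => hz))
      have e1 : P ++ a :: b :: Q = P ++ [a] ++ [b] ++ qs.flatten ++ R := by
        rw [hfl]; simp
      have e2 : P ++ b :: a :: Q = P ++ [b] ++ [a] ++ qs.flatten ++ R := by
        rw [hfl]; simp
      rw [e1, e2]
      exact h
  · by_cases hbP : b ∈ P
    · -- `a ∉ P`, `b ∈ P`
      have ham : ¬ Dp m (P ++ a :: b :: Q) a := fun h => hH1 ⟨haP, Or.inl h⟩
      obtain ⟨qs, R, hl, hfl, hok, -⟩ := h2 m (P ++ a :: b :: Q) (P ++ [a, b]) Q [a] (by simp) (by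
        intro z hz
        rw [List.mem_singleton] at hz
        subst hz
        exact Or.inr ⟨by simp, ham⟩)
      have h := hW P [b] [a] qs R hl (by
        intro l hl
        rw [List.mem_singleton] at hl
        subst hl
        rw [List.count_append, List.count_singleton_self]
        have := List.count_pos_iff.2 hbP
        omega) (h3 qs (P ++ [a, b]) (P ++ [b] ++ [a]) [a] [a] hok (by
          intro l
          simp only [List.count_append, List.count_cons, List.count_nil]
          omega) (fun z hz => hz))
      have e1 : P ++ a :: b :: Q = P ++ [a] ++ [b] ++ qs.flatten ++ R := by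
        rw [hfl]; simp
      have e2 : P ++ b :: a :: Q = P ++ [b] ++ [a] ++ qs.flatten ++ R := by
        rw [hfl]; simp
      rw [e1, e2]
      exact h.symm
    · -- both not in `P`
      have ham : ¬ Dp m (P ++ a :: b :: Q) a := fun h => hH1 ⟨haP, Or.inl h⟩
      have hbm : ¬ Dp m (P ++ a :: b :: Q) b := fun h => hH2 ⟨hbP, Or.inl h⟩
      have ha0 : P.count a = 0 := List.count_eq_zero.2 haP
      have hb0 : P.count b = 0 := List.count_eq_zero.2 hbP
      by_cases hb : Dp (m + 1) (P ++ a :: b :: Q) b
      · -- (5)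
        have ha : ¬ Dp (m + 1) (P ++ a :: b :: Q) a := fun h => hH1 ⟨haP, Or.inr ⟨h, hb, hb0⟩⟩
        obtain ⟨Q1, qs, R, hl, hQ, hok⟩ := tgb_core h2 h4 h5 m P a b a b Q (by
          rw [List.count_append, ha0]
          simp [hab.symm]) (by simp) ha hbm
        have s1 := h6 θ hK m hW P a (b :: Q1) qs R hl (h3 qs _ _ _ _ hok (by
          intro l
          simp only [List.count_append, List.count_cons, List.count_nil]
          omega) (by
          intro z hz
          exact hz))
        have s2 := h6 θ hK m hW (P ++ [b]) a Q1 qs R hl (h3 qs _ _ _ _ hok (by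
          intro l
          simp only [List.count_append, List.count_cons, List.count_nil]
          omega) (by
          intro z hz
          exact List.mem_cons_of_mem _ hz))
        have e1 : P ++ a :: b :: Q = P ++ [a] ++ (b :: Q1) ++ [a] ++ qs.flatten ++ R := by
          rw [hQ]; simp
        have e2 : P ++ b :: a :: Q = P ++ [b] ++ [a] ++ Q1 ++ [a] ++ qs.flatten ++ R := by
          rw [hQ]; simp
        have e3 : P ++ (b :: Q1) ++ [a, a] ++ qs.flatten ++ R =
            P ++ [b] ++ Q1 ++ [a, a] ++ qs.flatten ++ R := by simp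
        rw [e1, e2]
        rw [e3] at s1
        exact θ.trans s1 s2.symm
      · -- (4)
        obtain ⟨Q1, qs, R, hl, hQ, hok⟩ := tgb_core h2 h4 h5 m P a b b a Q (by
          rw [List.count_append, hb0]
          simp [hab]) (by simp) hb ham
        have s1 := h6 θ hK m hW (P ++ [a]) b Q1 qs R hl (h3 qs _ _ _ _ hok (by
          intro l
          simp only [List.count_append, List.count_cons, List.count_nil]
          omega) (by
          intro z hz
          exact List.mem_cons_of_mem _ hz))
        have s2 := h6 θ hK m hW P b (a :: Q1) qs R hl (h3 qs _ _ _ _ hok (by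
          intro l
          simp only [List.count_append, List.count_cons, List.count_nil]
          omega) (by
          intro z hz
          exact hz))
        have e1 : P ++ a :: b :: Q = P ++ [a] ++ [b] ++ Q1 ++ [b] ++ qs.flatten ++ R := by
          rw [hQ]; simp
        have e2 : P ++ b :: a :: Q = P ++ [b] ++ (a :: Q1) ++ [b] ++ qs.flatten ++ R := by
          rw [hQ]; simp
        have e3 : P ++ (a :: Q1) ++ [b, b] ++ qs.flatten ++ R =
            P ++ [a] ++ Q1 ++ [b, b] ++ qs.flatten ++ R := by simp
        rw [e1, e2]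
        rw [e3] at s2
        exact θ.trans s1 s2.symm

end Pool.Agent.MWK.H19
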